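import Pool.Agent.X324.CG.PolyInv

set_option autoImplicit false

/-!
# The nef cone conjecture for `(A × F) / G`, if the effective nef cone of `F / G` is polyhedral

`A = V / Λ` is an abelian variety and `F` a normal projective `ℚ`-factorial variety with free class
group `Cl(F) = ℤ^ρ`, given by its Cox ring `R = ⨁ H⁰(F, O_F(β))`. Let `X = (A × F) / G` be a projective
quotient, where a finite group `G` acts on both factors; the action may have fixed points and fixed
divisors. The classes of `F` which are invariant under `G` form the space `N^1(F / G)`, and the nef and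
effective classes among them the cone `Nef^e(F / G)`. The only hypothesis is that `Nef^e(F / G)` is
rational polyhedral; for instance, `F / G` is a Mori dream space, or its Picard number is one. The
variety `F` need not be a Mori dream space, its automorphism group may be infinite, and nothing is
assumed about the cone conjecture for `F` or about the canonical class. (For instance, `F` may be any
double covering of `ℙ^n` or of a Fano variety with the covering involution.) The theorem says that the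
cone `Nef^e(X)` of nef and effective classes has a rational polyhedral fundamental domain for every
group of linear automorphisms of `N^1(X)` which preserves `Nef^e(X)` and the integral classes and which
contains the pullbacks by the automorphisms of `X` of the form `(f, id)`, where `f` is an affine
transformation of `A`. (The image of `Aut(X)` is such a group.) Moreover `Nef^e(X)` is the convex hull
of the rational nef classes, and its faces form finitely many orbits.

The proof: `N^1(X)` is the product of a space of hermitian forms on `V` and of the space of the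
`G`-invariant classes of `F`. The first factor is treated by reduction theory (Voronoi's theory of
perfect forms for an order in a real algebra with a positive involution); units in a subgroup of finite
index extend to affine transformations `f` such that `(f, id)` normalises the group `Γ`. The cone of
the second factor is polyhedral by hypothesis; the averages over `G` show that it is the closure of the
cone spanned by the invariant semiample classes. Then a Dirichlet domain of a rational linear form with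
trivial stabiliser is a fundamental domain.

`Cl`, `SemiampleF`, `Grp`, `IsQuotient`, `Inv`, `Sheaf`, `N1`, `integral`, `effective`, `semiample`,
`nefCone`, `effCone`, `coneHull`, `Normalizes` and `IsPullback` are defined in
`Pool.Agent.X324.CF.Defs`; `IsCoxRing` and `real` in `Pool.Agent.X324.CG.Defs`; `IsTorusQuotient` in
`Pool.Agent.W594.SYZ.Defs2`; `IsPositiveForm` in `Pool.Agent.W594.SYZ.TQDefs`; `LinGrp`, `Preserves`,
`IsFundDomain` in `Pool.Agent.Y167.Stm`; `cone` in `Pool.Agent.Y167.ConeDef`; `IsFace` in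
`Pool.Agent.Y167.StmFace`.
-/

namespace Pool.Agent.Results.MP_e49dc9_ag.PolyhedralQuotient

open Pool.Agent.W594.SYZ2 Pool.Agent.TH735.AQ Pool.Agent.X324.CF
open Pool.Agent.X324.CG (IsCoxRing real)
open Pool.Agent.Y167 (cone IsFace)
open Pool.Agent.Y167.CC (LinGrp Preserves IsFundDomain)

section F

variable {R : Type*} [CommRing R] [Algebra ℂ R] {ρ : ℕ} (𝒜 : Cl ρ → Submodule ℂ R)

/-- The nef cone of `F`: the closure of the convex cone spanned by the semiample classes; here `u` is
an ample class of `F`. -/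
def nefF (u : Cl ρ) : Set (Fin ρ → ℝ) :=
  closure (coneHull {b | ∃ β, SemiampleF 𝒜 u β ∧ b = real β})

/-- The effective cone of `F`: the convex cone spanned by the classes of effective divisors. -/
def effF : Set (Fin ρ → ℝ) := coneHull {b | ∃ β, (∃ r ∈ 𝒜 β, r ≠ 0) ∧ b = real β}

end F

/-- The real space `N^1(F / G)` of the classes of `F` which are invariant under `Γ`. -/
def invF {V R : Type*} [NormedAddCommGroup V] [NormedSpace ℂ V] [CommRing R] [Algebra ℂ R] {ρ : ℕ}
    (𝒜 : Cl ρ → Submodule ℂ R) (Γ : Grp V R) : Set (Fin ρ → ℝ) :=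
  Submodule.span ℝ {b | ∃ β, Inv 𝒜 Γ β ∧ b = real β}

/-- The cone of nef and effective classes of `F / G` is rational polyhedral. -/
def QuotientPolyhedral {V R : Type*} [NormedAddCommGroup V] [NormedSpace ℂ V] [CommRing R]
    [Algebra ℂ R] {ρ : ℕ} (𝒜 : Cl ρ → Submodule ℂ R) (u : Cl ρ) (Γ : Grp V R) : Prop :=
  ∃ T : Finset (Fin ρ → ℝ), (∀ s ∈ T, ∃ β, s = real β) ∧
    nefF 𝒜 u ∩ effF 𝒜 ∩ invF 𝒜 Γ = cone T

/-- The space `N^1(X)`. (In the absolute case the linear subspace `E` of `V` of the general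
definitions is `V` itself, embedded by the identity map.) -/
abbrev NS {V R : Type*} [NormedAddCommGroup V] [NormedSpace ℂ V] [CommRing R] [Algebra ℂ R] {ρ : ℕ}
    (𝒜 : Cl ρ → Submodule ℂ R) (Γ : Grp V R) : Type _ :=
  N1 𝒜 Γ (LinearMap.id : V →ₗ[ℂ] V)

/-- The nef cone of `X`. -/
def nef {V R : Type*} [NormedAddCommGroup V] [NormedSpace ℂ V] [CommRing R] [Algebra ℂ R] {ρ : ℕ}
    (𝒜 : Cl ρ → Submodule ℂ R) (Γ : Grp V R) (u : Cl ρ) : Set (NS 𝒜 Γ) :=
  nefCone 𝒜 Γ LinearMap.id u

/-- The cone `Nef^e(X)` of nef and effective classes. -/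
def nefEff {V R : Type*} [NormedAddCommGroup V] [NormedSpace ℂ V] [CommRing R] [Algebra ℂ R] {ρ : ℕ}
    (𝒜 : Cl ρ → Submodule ℂ R) (Γ : Grp V R) (u : Cl ρ) : Set (NS 𝒜 Γ) :=
  nef 𝒜 Γ u ∩ effCone 𝒜 Γ LinearMap.id

/-- The rational classes: those which have a positive integral multiple. -/
def rational {V R : Type*} [NormedAddCommGroup V] [NormedSpace ℂ V] [CommRing R] [Algebra ℂ R]
    {ρ : ℕ} (𝒜 : Cl ρ → Submodule ℂ R) (Γ : Grp V R) : Set (NS 𝒜 Γ) :=
  {x | ∃ n : ℕ, 0 < n ∧ (n : ℝ) • x ∈ integral 𝒜 Γ LinearMap.id}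

/-- `𝒢` is a group of linear automorphisms of `N^1(X)` which preserves the integral classes and the
cone of nef and effective classes, and which contains the pullbacks by all automorphisms of `X` of the
form `(f, id)`, where `f` is an affine transformation of `V`. -/
structure IsLargeGroup {V R : Type*} [NormedAddCommGroup V] [NormedSpace ℂ V] [CommRing R]
    [Algebra ℂ R] {ρ : ℕ} {𝒜 : Cl ρ → Submodule ℂ R} (u : Cl ρ) {Γ : Grp V R}
    (𝒢 : LinGrp (NS 𝒜 Γ)) : Prop where
  int : Preserves 𝒢 (integral 𝒜 Γ LinearMap.id)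
  nef_eff : Preserves 𝒢 (nefEff 𝒜 Γ u)
  aff : ∀ f : V ≃ᵃ[ℂ] V, Normalizes Γ f → ∀ g, IsPullback f g → g ∈ 𝒢

/-- Let `X = (V × F) / Γ` be a projective quotient such that the cone of nef and effective classes of
`F / G` is rational polyhedral. There is a finite set `S` of integral classes such that the cone spanned by
`S` is contained in `Nef^e(X)` and is a fundamental domain for the action of `𝒢` on `Nef^e(X)`.
Moreover `Nef^e(X)` is the convex hull of the rational nef classes, and its faces form finitely many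
orbits under `𝒢`. -/
theorem result {V R : Type*} [NormedAddCommGroup V] [NormedSpace ℂ V] [FiniteDimensional ℂ V]
    [CommRing R] [IsDomain R] [Algebra ℂ R] {ρ : ℕ}
    (𝒜 : Cl ρ → Submodule ℂ R) [GradedAlgebra 𝒜] (u : Cl ρ) (hF : IsCoxRing 𝒜 u)
    (Γ : Grp V R) (hX : IsQuotient 𝒜 u Γ) (hpoly : QuotientPolyhedral 𝒜 u Γ)
    (hproj : ∃ (L : Sheaf 𝒜 Γ) (H : V → V → ℂ), L.IsChern H ∧ IsPositiveForm H)
    (𝒢 : LinGrp (NS 𝒜 Γ)) (h𝒢 : IsLargeGroup u 𝒢) :
    (∃ S : Finset (NS 𝒜 Γ), ↑S ⊆ integral 𝒜 Γ LinearMap.id ∧ cone S ⊆ nefEff 𝒜 Γ u ∧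
      IsFundDomain 𝒢 (nefEff 𝒜 Γ u) (cone S)) ∧
    nefEff 𝒜 Γ u = convexHull ℝ (nef 𝒜 Γ u ∩ rational 𝒜 Γ) ∧
    ∃ 𝓕 : Set (Set (NS 𝒜 Γ)), 𝓕.Finite ∧ (∀ Φ ∈ 𝓕, IsFace Φ (nefEff 𝒜 Γ u)) ∧
      ∀ Φ, IsFace Φ (nefEff 𝒜 Γ u) → ∃ g ∈ 𝒢, ∃ Φ' ∈ 𝓕, Φ = g '' Φ' := by
  obtain ⟨H₀, Rl⟩ := rel_id hX hproj
  obtain ⟨d, D⟩ := hF.sys_nef (𝒮 := gal Γ) fun _ h => Pool.Agent.X324.CG.gal_aut hX h
  obtain ⟨T, hT, hTc⟩ := hpoly
  have hK : Pool.Agent.X324.CG.KQ {β | SemiampleF 𝒜 u β} ⊤ = nefF 𝒜 u := by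
    have h1 : {b : Fin ρ → ℝ | ∃ β, β ∈ {β | SemiampleF 𝒜 u β} ∧ β ∈ (⊤ : AddSubgroup (Cl ρ)) ∧
        b = rv β} = {b | ∃ β, SemiampleF 𝒜 u β ∧ b = real β} := by
      ext b
      exact ⟨fun ⟨β, h1, _, h2⟩ => ⟨β, h1, h2⟩, fun ⟨β, h1, h2⟩ => ⟨β, h1, AddSubgroup.mem_top β, h2⟩⟩
    change closure (coneHull _) = closure (coneHull _)
    rw [h1]
  have hE : Pool.Agent.X324.CG.EQ 𝒜 ⊤ = effF 𝒜 := by
    have h1 : {b : Fin ρ → ℝ | ∃ β, (∃ r ∈ 𝒜 β, r ≠ 0) ∧ β ∈ (⊤ : AddSubgroup (Cl ρ)) ∧
        b = rv β} = {b | ∃ β, (∃ r ∈ 𝒜 β, r ≠ 0) ∧ b = real β} := by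
      ext b
      exact ⟨fun ⟨β, h1, _, h2⟩ => ⟨β, h1, h2⟩, fun ⟨β, h1, h2⟩ => ⟨β, h1, AddSubgroup.mem_top β, h2⟩⟩
    change coneHull _ = coneHull _
    rw [h1]
  have hB : ∀ b, b ∈ Bs 𝒜 Γ ↔ b ∈ invF 𝒜 Γ := fun b => Iff.rfl
  refine Pool.Agent.X324.CG.main7 D hX (S₀ := T) (fun s hs => ?_) (fun b hb hb' hb2 => ?_) Rl
    (hF.good_nef hX D.base) 𝒢 h𝒢.int h𝒢.nef_eff fun f hf _ g hg => h𝒢.aff f hf g hg
  · rw [hK, hE, hB]
    have h1 : s ∈ nefF 𝒜 u ∩ effF 𝒜 ∩ invF 𝒜 Γ := by
      rw [hTc]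
      exact Pool.Agent.Y167.mem_cone_self hs
    exact ⟨h1.1, h1.2, hT s hs⟩
  · rw [hK] at hb
    rw [hE] at hb'
    rw [hB] at hb2
    rw [← hTc]
    exact ⟨⟨hb, hb'⟩, hb2⟩

end Pool.Agent.Results.MP_e49dc9_ag.PolyhedralQuotient
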