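import Pool.Agent.X324.CG.Fin

set_option autoImplicit false

/-!
# The nef cone conjecture: reduction to the factors of the Beauville–Bogomolov decomposition

A smooth projective variety `Y` with `K_Y ≡ 0` is of the form `Y = (A × F) / G`, where `A = V / Λ` is an
abelian variety, `F = ∏ F i` is a simply connected product of irreducible holomorphic symplectic and of
strict Calabi–Yau manifolds, and `G` is a finite group which acts on both factors. The theorem says: if
the nef cone conjecture holds for all `F i` (and only finitely many automorphisms of `F` act trivially on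
`Cl(F)`, which is known if `F` is simply connected with `K_F ≡ 0`), then it holds for `Y`: the cone
`Nef^e(Y)` has a rational polyhedral fundamental domain for the action of `Aut(Y)`. Moreover `Nef^e(Y)` is
the convex hull `Nef^+(Y)` of the rational nef classes, and its faces form finitely many orbits.

So the conjecture is reduced to strict Calabi–Yau manifolds, because it is known for irreducible
holomorphic symplectic manifolds (Markman, Amerik–Verbitsky). The theorem holds for all projective
quotients `X = (A × F) / G`; `X` may be singular, the action of `G` may have fixed points, the elements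
of `G` may permute the factors `F i`, and there is no condition on the canonical class. Here `F` is any
normal projective `ℚ`-factorial variety with free class group `Cl(F) = ℤ^ρ`, given by its Cox ring
`R = ⨁ H⁰(F, O_F(β))`, which need not be finitely generated.

The proof: `N^1(X)` is the product of a space of hermitian forms on `V` and of the space of the
`G`-invariant classes of `F`. The first factor is treated by reduction theory. For the second, a
Dirichlet domain for `Aut(F)` acting on `Nef^e(F)` is constructed; only finitely many elements of the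
group fix an interior point of it, therefore the translates of the domain which meet the interior of the
cone of invariant classes form finitely many orbits under the centraliser of `G` (modulo the torus),
which consists of automorphisms `φ` of `F` such that `(id, φ)` normalises the group `Γ`.

`Cl`, `Semistable`, `SemiampleF`, `Induces`, `Scal`, `Elt`, `Grp`, `IsQuotient`, `Sheaf`, `N1`,
`integral`, `effective`, `semiample`, `nefCone` and `effCone` are defined in `Pool.Agent.X324.CF.Defs`;
`IsCoxRing`, `IsProduct`, `nefF`, `effF`, `HasCover`, `FiniteKernel`, `IsAut`, `OnFactor`, `NormalizesX`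
and `IsPullbackX` in `Pool.Agent.X324.CG.Defs`; `IsTorusQuotient` in `Pool.Agent.W594.SYZ.Defs2`;
`IsPositiveForm` in `Pool.Agent.W594.SYZ.TQDefs`; `LinGrp`, `Preserves`, `IsFundDomain` in
`Pool.Agent.Y167.Stm`; `cone` in `Pool.Agent.Y167.ConeDef`; `IsFace` in `Pool.Agent.Y167.StmFace`.
-/

namespace Pool.Agent.Results.MP_e49dc9_ag.Reduction

open Pool.Agent.W594.SYZ2 Pool.Agent.TH735.AQ Pool.Agent.X324.CF
open Pool.Agent.X324.CG (IsCoxRing IsProduct nefF effF HasCover FiniteKernel IsAut OnFactor
  NormalizesX IsPullbackX)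
open Pool.Agent.Y167 (cone IsFace)
open Pool.Agent.Y167.CC (LinGrp Preserves IsFundDomain)

/-- The space `N^1(X)`. (In the absolute case the linear subspace `E` of `V` of the general
definitions is `V` itself, embedded by the identity map.) -/
abbrev NS {V R : Type*} [NormedAddCommGroup V] [NormedSpace ℂ V] [CommRing R] [Algebra ℂ R] {ρ : ℕ}
    (𝒜 : Cl ρ → Submodule ℂ R) (Γ : Grp V R) : Type _ :=
  N1 𝒜 Γ (LinearMap.id : V →ₗ[ℂ] V)

/-- The nef cone of `X`. -/
def nef {V R : Type*} [NormedAddCommGroup V] [NormedSpace ℂ V] [CommRing R] [Algebra ℂ R] {ρ : ℕ}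
    (𝒜 : Cl ρ → Submodule ℂ R) (Γ : Grp V R) (u : Cl ρ) : Set (NS 𝒜 Γ) :=
  nefCone 𝒜 Γ LinearMap.id u

/-- The cone `Nef^e(X)` of nef and effective classes. -/
def nefEff {V R : Type*} [NormedAddCommGroup V] [NormedSpace ℂ V] [CommRing R] [Algebra ℂ R] {ρ : ℕ}
    (𝒜 : Cl ρ → Submodule ℂ R) (Γ : Grp V R) (u : Cl ρ) : Set (NS 𝒜 Γ) :=
  nef 𝒜 Γ u ∩ effCone 𝒜 Γ LinearMap.id

/-- The rational classes: those which have a positive integral multiple. -/
def rational {V R : Type*} [NormedAddCommGroup V] [NormedSpace ℂ V] [CommRing R] [Algebra ℂ R]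
    {ρ : ℕ} (𝒜 : Cl ρ → Submodule ℂ R) (Γ : Grp V R) : Set (NS 𝒜 Γ) :=
  {x | ∃ n : ℕ, 0 < n ∧ (n : ℝ) • x ∈ integral 𝒜 Γ LinearMap.id}

/-- `𝒢` is a group of linear automorphisms of `N^1(X)` which preserves the integral classes and the
cone of nef and effective classes, and which contains the pullbacks by all automorphisms of `X` induced
by pairs `(f, φ)` of an affine transformation of `V` and an automorphism of `F`. The image of `Aut(X)`
has these properties. -/
structure IsAutGroup {V R : Type*} [NormedAddCommGroup V] [NormedSpace ℂ V] [CommRing R]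
    [Algebra ℂ R] {ρ : ℕ} {𝒜 : Cl ρ → Submodule ℂ R} (u : Cl ρ) {Γ : Grp V R}
    (𝒢 : LinGrp (NS 𝒜 Γ)) : Prop where
  int : Preserves 𝒢 (integral 𝒜 Γ LinearMap.id)
  nef_eff : Preserves 𝒢 (nefEff 𝒜 Γ u)
  aut : ∀ a : Elt V R, NormalizesX 𝒜 Γ a → IsAut 𝒜 u a.2 → ∀ g, IsPullbackX a g → g ∈ 𝒢

/-- Let `F` be the product of varieties `F i`, `i ∈ κ`, such that for each `i` the cone `Nef^e(F i)` is
covered by the translates of a rational polyhedral cone under `Aut(F i)`, and let only finitely many
automorphisms of `F` act trivially on `Cl(F)`. Let `X = (V × F) / Γ` be a projective quotient. There is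
a finite set `S` of integral classes such that the cone spanned by `S` is contained in `Nef^e(X)` and is
a fundamental domain for the action of `𝒢` on `Nef^e(X)`. Moreover `Nef^e(X)` is the convex hull of the
rational nef classes, and its faces form finitely many orbits under `𝒢`. -/
theorem result {V R κ : Type*} [NormedAddCommGroup V] [NormedSpace ℂ V] [FiniteDimensional ℂ V]
    [CommRing R] [IsDomain R] [Algebra ℂ R] [DecidableEq κ] [Fintype κ] {ρ : ℕ}
    (𝒜 : Cl ρ → Submodule ℂ R) [GradedAlgebra 𝒜] (u : Cl ρ) (hF : IsCoxRing 𝒜 u)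
    (c : Fin ρ → κ) (hprod : IsProduct 𝒜 c)
    (hcone : ∀ i, HasCover 𝒜 (nefF 𝒜 u c i ∩ effF 𝒜 c i) {φ | IsAut 𝒜 u φ ∧ OnFactor 𝒜 c i φ})
    (hker : FiniteKernel 𝒜 {φ | IsAut 𝒜 u φ}) (Γ : Grp V R) (hX : IsQuotient 𝒜 u Γ)
    (hproj : ∃ (L : Sheaf 𝒜 Γ) (H : V → V → ℂ), L.IsChern H ∧ IsPositiveForm H)
    (𝒢 : LinGrp (NS 𝒜 Γ)) (h𝒢 : IsAutGroup u 𝒢) :
    (∃ S : Finset (NS 𝒜 Γ), ↑S ⊆ integral 𝒜 Γ LinearMap.id ∧ cone S ⊆ nefEff 𝒜 Γ u ∧
      IsFundDomain 𝒢 (nefEff 𝒜 Γ u) (cone S)) ∧
    nefEff 𝒜 Γ u = convexHull ℝ (nef 𝒜 Γ u ∩ rational 𝒜 Γ) ∧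
    ∃ 𝓕 : Set (Set (NS 𝒜 Γ)), 𝓕.Finite ∧ (∀ Φ ∈ 𝓕, IsFace Φ (nefEff 𝒜 Γ u)) ∧
      ∀ Φ, IsFace Φ (nefEff 𝒜 Γ u) → ∃ g ∈ 𝒢, ∃ Φ' ∈ 𝓕, Φ = g '' Φ' := by
  obtain ⟨H₀, Rl⟩ := rel_id hX hproj
  obtain ⟨d, D, S₀, hS₀, hcov⟩ := Pool.Agent.X324.CG.cover_nef
    (𝒮 := Pool.Agent.X324.CG.autF 𝒜 u) hF hprod (fun _ h => h) hcone
  exact Pool.Agent.X324.CG.main3 D hX (fun _ h => Pool.Agent.X324.CG.gal_aut hX h) hS₀ hcov hker
    Rl (hF.good_nef hX D.base) (fun _ => True) (fun _ _ _ _ _ => trivial) (fun _ _ => trivial)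
    𝒢 h𝒢.int h𝒢.nef_eff (fun a ha ha2 _ _ g hg => h𝒢.aut a ha ha2 g hg)

end Pool.Agent.Results.MP_e49dc9_ag.Reduction
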